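import Mathlib
import Pool.Agent.helper65.PS.Defs
import Pool.Agent.helper65.PS.Gam
import Pool.Agent.helper65.PS.Ftw
import Pool.Agent.helper65.PS.Quint
import Pool.Agent.helper65.PS.Spor
import Pool.Agent.helper65.PS.Upper

/-! # Algebraic degrees of `PS+` bent functions

With `n = 2 m`, the set `D m` of the algebraic degrees of the `PS+` functions on `F_2^n`
contains an explicit set of degrees, does not contain `2` when `m` is odd, and is completely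
determined for `n ≤ 10`. -/

namespace Pool.Agent.Results.MP_7c4831_co.DegreeBounds

open Pool.Agent.helper65.PS

theorem result (m : ℕ) (hm : 2 ≤ m) :
    {d : ℕ | d = m ∨ (3 ≤ m ∧ d = 3) ∨ (Even m ∧ d = 2) ∨ (Odd m ∧ 5 ≤ m ∧ d = 5) ∨
        (Even m ∧ 4 ≤ m ∧ d = m / 2 + 2) ∨ (m = 5 ∧ d = 4)} ⊆ D m ∧
      D m ⊆ {d : ℕ | 2 ≤ d ∧ d ≤ m ∧ (d = 2 → Even m)} ∧
      (m ≤ 5 → D m = {d : ℕ | 2 ≤ d ∧ d ≤ m ∧ (d = 2 → Even m)}) := by
  have h1 : {d : ℕ | d = m ∨ (3 ≤ m ∧ d = 3) ∨ (Even m ∧ d = 2) ∨ (Odd m ∧ 5 ≤ m ∧ d = 5) ∨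
        (Even m ∧ 4 ≤ m ∧ d = m / 2 + 2) ∨ (m = 5 ∧ d = 4)} ⊆ D m := by
    rintro d (rfl | ⟨h, rfl⟩ | ⟨h, rfl⟩ | ⟨h, h', rfl⟩ | ⟨h, h', rfl⟩ | ⟨rfl, rfl⟩)
    · exact self_mem d hm
    · exact three_mem m h
    · exact two_mem m hm h
    · exact five_mem m h' h
    · exact ftw_mem m h' h
    · exact four_mem
  have h2 : D m ⊆ {d : ℕ | 2 ≤ d ∧ d ≤ m ∧ (d = 2 → Even m)} := fun d hd => D_bounds hm hd
  refine ⟨h1, h2, fun h5 => Set.Subset.antisymm h2 ?_⟩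
  rintro d ⟨hd2, hdm, he⟩
  apply h1
  obtain rfl | rfl | rfl | rfl : m = 2 ∨ m = 3 ∨ m = 4 ∨ m = 5 := by omega
  · left; omega
  · obtain rfl | rfl : d = 2 ∨ d = 3 := by omega
    · exact absurd (he rfl) (by decide)
    · left; rfl
  · obtain rfl | rfl | rfl : d = 2 ∨ d = 3 ∨ d = 4 := by omega
    · right; right; left; exact ⟨by decide, rfl⟩
    · right; left; exact ⟨by norm_num, rfl⟩
    · left; rfl
  · obtain rfl | rfl | rfl | rfl : d = 2 ∨ d = 3 ∨ d = 4 ∨ d = 5 := by omega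
    · exact absurd (he rfl) (by decide)
    · right; left; exact ⟨by norm_num, rfl⟩
    · right; right; right; right; right; exact ⟨rfl, rfl⟩
    · left; rfl

end Pool.Agent.Results.MP_7c4831_co.DegreeBounds
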